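import Pool.Agent.Helper50.BL.Stmts
import Pool.Agent.Helper50.BL.Base

/-! # Module FLOC: locality of the fields of the final stage -/

namespace Pool.Agent.Helper50.BL

open Finset
open scoped Classical

/-- values split over components -/
theorem floc_abs {α : Type} {R : α → α → Prop} {Q : Finset α} {C : Finset (Finset α)}
    (h : IsComp R Q C) (P : α → Prop) (hP : ∀ p q, P p → P q → R p q) {M : Type}
    [AddCommMonoid M] (F : Finset α → M) (h1 : ∀ Q', F Q' ≠ 0 → ∃ p ∈ Q', P p)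
    (h2 : ∀ Q' A, A ⊆ Q' → (∀ p ∈ Q', p ∉ A → ¬ P p) → F Q' = F A) :
    F Q = ∑ A ∈ C, F A := by
  by_cases hex : ∃ A0 ∈ C, ∃ p ∈ A0, P p
  · obtain ⟨A0, hA0, p0, hp0, hPp⟩ := hex
    rw [Finset.sum_eq_single_of_mem A0 hA0]
    · refine h2 Q A0 (h.subset hA0) ?_
      intro p hp hpA hPp'
      obtain ⟨A', hA', hpA'⟩ := (h.2.1 p).1 hp
      have hne : A0 ≠ A' := by
        rintro rfl
        exact hpA hpA'
      exact (h.2.2 A0 hA0 A' hA' hne p0 hp0 p hpA').2 (hP p0 p hPp hPp')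
    · intro A' hA' hne
      by_contra hF
      obtain ⟨p, hp, hPp'⟩ := h1 A' hF
      exact (h.2.2 A0 hA0 A' hA' (Ne.symm hne) p0 hp0 p hp).2 (hP p0 p hPp hPp')
  · have e1 : F Q = 0 := by
      by_contra hF
      obtain ⟨p, hp, hPp⟩ := h1 Q hF
      obtain ⟨A, hA, hpA⟩ := (h.2.1 p).1 hp
      exact hex ⟨A, hA, p, hpA, hPp⟩
    rw [e1]
    symm
    refine Finset.sum_eq_zero fun A hA => ?_
    by_contra hF
    obtain ⟨p, hp, hPp⟩ := h1 A hF
    exact hex ⟨A, hA, p, hp, hPp⟩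

/-- two components have disjoint values -/
theorem floc_abs2 {α : Type} {R : α → α → Prop} {Q : Finset α} {C : Finset (Finset α)}
    (h : IsComp R Q C) (P : α → Prop) (hP : ∀ p q, P p → P q → R p q) {A A' : Finset α}
    (hA : A ∈ C) (hA' : A' ∈ C) (hne : A ≠ A') (h1 : ∃ p ∈ A, P p) (h2 : ∃ p ∈ A', P p) :
    False := by
  obtain ⟨p, hp, h3⟩ := h1
  obtain ⟨q, hq, h4⟩ := h2
  exact (h.2.2 A hA A' hA' hne p hp q hq).2 (hP p q h3 h4)

section floc

variable {V J ι : Type} [Fintype V] [DecidableEq V] [DecidableEq J] {φ : ι → V → ℤ}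
  {S : J → Finset V} {Z : Finset J}

theorem floc_phi1 {Q A : Finset (FPol ι J)} (hA : A ⊆ Q) {x : V}
    (h : ∀ p ∈ Q, p ∉ A → x ∉ fsup φ S Z p) :
    ∑ p ∈ Q, fΦ1 φ x p = ∑ p ∈ A, fΦ1 φ x p := by
  symm
  refine Finset.sum_subset hA ?_
  intro p hp hpA
  by_contra hne
  refine h p hp hpA ?_
  rcases p with (a | a) | (p | p)
  · show x ∈ isupp (φ a)
    exact Finset.mem_filter.2 ⟨Finset.mem_univ _, hne⟩
  · exact absurd rfl hne
  · exact absurd rfl hne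
  · exact absurd rfl hne

theorem floc_phi2 {Q A : Finset (FPol ι J)} (hA : A ⊆ Q) {x : V}
    (h : ∀ p ∈ Q, p ∉ A → x ∉ fsup φ S Z p) :
    ∑ p ∈ Q, fΦ2 φ x p = ∑ p ∈ A, fΦ2 φ x p := by
  symm
  refine Finset.sum_subset hA ?_
  intro p hp hpA
  by_contra hne
  refine h p hp hpA ?_
  rcases p with (a | a) | (p | p)
  · exact absurd rfl hne
  · show x ∈ isupp (φ a)
    exact Finset.mem_filter.2 ⟨Finset.mem_univ _, hne⟩
  · exact absurd rfl hne
  · exact absurd rfl hne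

theorem floc_aux {p : J × ℤ} {i : J} {x : V} (hi : i ∈ Z) (hx : x ∈ S i)
    (hne : (if p.1 = i then p.2 else 0) ≠ 0) :
    x ∈ (if p.1 ∈ Z ∧ p.2 ≠ 0 then S p.1 else ∅) := by
  have e1 : p.1 = i := by
    by_contra e
    rw [if_neg e] at hne
    exact hne rfl
  rw [if_pos e1] at hne
  rw [if_pos ⟨e1 ▸ hi, hne⟩, e1]
  exact hx

theorem floc_r1 {Q A : Finset (FPol ι J)} (hA : A ⊆ Q) {x : V} {i : J} (hi : i ∈ Z)
    (hx : x ∈ S i) (h : ∀ p ∈ Q, p ∉ A → x ∉ fsup φ S Z p) :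
    ∑ p ∈ Q, fr1 i p = ∑ p ∈ A, fr1 i p := by
  symm
  refine Finset.sum_subset hA ?_
  intro p hp hpA
  by_contra hne
  refine h p hp hpA ?_
  rcases p with (a | a) | (p | p)
  · exact absurd rfl hne
  · exact absurd rfl hne
  · exact floc_aux hi hx hne
  · exact absurd rfl hne

theorem floc_r2 {Q A : Finset (FPol ι J)} (hA : A ⊆ Q) {x : V} {i : J} (hi : i ∈ Z)
    (hx : x ∈ S i) (h : ∀ p ∈ Q, p ∉ A → x ∉ fsup φ S Z p) :
    ∑ p ∈ Q, fr2 i p = ∑ p ∈ A, fr2 i p := by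
  symm
  refine Finset.sum_subset hA ?_
  intro p hp hpA
  by_contra hne
  refine h p hp hpA ?_
  rcases p with (a | a) | (p | p)
  · exact absurd rfl hne
  · exact absurd rfl hne
  · exact absurd rfl hne
  · exact floc_aux hi hx hne

theorem floc_agree1 (Ag : ℝ) {Q A : Finset (FPol ι J)} (hA : A ⊆ Q) {x : V}
    (h : ∀ p ∈ Q, p ∉ A → x ∉ fsup φ S Z p) : fw1 φ S Z Ag Q x = fw1 φ S Z Ag A x := by
  unfold fw1 finw
  beta_reduce
  congr 1
  congr 1
  · rw [floc_phi1 hA h]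
  · congr 1
    refine Finset.sum_congr rfl fun i hi => ?_
    obtain ⟨hi1, hi2⟩ := Finset.mem_filter.1 hi
    rw [floc_r1 hA hi1 hi2 h]

theorem floc_agree2 (Ag : ℝ) {Q A : Finset (FPol ι J)} (hA : A ⊆ Q) {x : V}
    (h : ∀ p ∈ Q, p ∉ A → x ∉ fsup φ S Z p) : fw2 φ S Z Ag Q x = fw2 φ S Z Ag A x := by
  unfold fw2 finw
  beta_reduce
  congr 1
  congr 1
  · rw [floc_phi2 hA h]
  · congr 1
    refine Finset.sum_congr rfl fun i hi => ?_
    obtain ⟨hi1, hi2⟩ := Finset.mem_filter.1 hi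
    rw [floc_r2 hA hi1 hi2 h]

omit [Fintype V] in
theorem floc_empty1 (Ag : ℝ) (x : V) : fw1 φ S Z Ag (∅ : Finset (FPol ι J)) x = 0 := by
  unfold fw1 finw
  simp

omit [Fintype V] in
theorem floc_empty2 (Ag : ℝ) (x : V) : fw2 φ S Z Ag (∅ : Finset (FPol ι J)) x = 0 := by
  unfold fw2 finw
  simp

end floc

theorem st_FLOC : ST_FLOC := by
  intro V J ι _ _ _ _ φ S Z Ag
  have h1 : ∀ (Q : Finset (FPol ι J)) (x : V), fw1 φ S Z Ag Q x ≠ 0 →
      ∃ p ∈ Q, x ∈ fsup φ S Z p := by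
    intro Q x hne
    by_contra hcon
    push Not at hcon
    refine hne ?_
    rw [floc_agree1 Ag (Finset.empty_subset Q) (fun p hp _ => hcon p hp)]
    exact floc_empty1 Ag x
  have h2 : ∀ (Q : Finset (FPol ι J)) (x : V), fw2 φ S Z Ag Q x ≠ 0 →
      ∃ p ∈ Q, x ∈ fsup φ S Z p := by
    intro Q x hne
    by_contra hcon
    push Not at hcon
    refine hne ?_
    rw [floc_agree2 Ag (Finset.empty_subset Q) (fun p hp _ => hcon p hp)]
    exact floc_empty2 Ag x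
  have h12 : ∀ (Q : Finset (FPol ι J)) (x : V), (fw1 φ S Z Ag Q x ≠ 0 ∨ fw2 φ S Z Ag Q x ≠ 0) →
      ∃ p ∈ Q, x ∈ fsup φ S Z p := by
    rintro Q x (h | h)
    · exact h1 Q x h
    · exact h2 Q x h
  have hP : ∀ (x : V) (p q : FPol ι J), x ∈ fsup φ S Z p → x ∈ fsup φ S Z q →
      FRel φ S Z p q := by
    intro x p q hp hq hd
    exact (Finset.disjoint_left.1 hd) hp hq
  refine ⟨h12, ?_⟩
  intro Q C hC
  refine ⟨?_, ?_, ?_⟩
  · intro x
    exact floc_abs hC (fun p => x ∈ fsup φ S Z p) (hP x) (fun Q' => fw1 φ S Z Ag Q' x)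
      (fun Q' hQ' => h1 Q' x hQ') (fun Q' A hA hh => floc_agree1 Ag hA hh)
  · intro x
    exact floc_abs hC (fun p => x ∈ fsup φ S Z p) (hP x) (fun Q' => fw2 φ S Z Ag Q' x)
      (fun Q' hQ' => h2 Q' x hQ') (fun Q' A hA hh => floc_agree2 Ag hA hh)
  · intro A hA A' hA' hne x
    by_contra hcon
    have ha : fw1 φ S Z Ag A x ≠ 0 ∨ fw2 φ S Z Ag A x ≠ 0 := by
      by_contra hc
      push Not at hc
      exact hcon (Or.inl hc)
    have hb : fw1 φ S Z Ag A' x ≠ 0 ∨ fw2 φ S Z Ag A' x ≠ 0 := by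
      by_contra hc
      push Not at hc
      exact hcon (Or.inr hc)
    exact floc_abs2 hC (fun p => x ∈ fsup φ S Z p) (hP x) hA hA' hne (h12 A x ha) (h12 A' x hb)

end Pool.Agent.Helper50.BL
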