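import Pool.Agent.Helper50.BL.Stmts
import Pool.Agent.Helper50.BL.Base

/-! # Module LOC: locality of the decoded field -/

namespace Pool.Agent.Helper50.BL

open Finset
open scoped Classical

/-- values split over components -/
theorem loc_abs {α : Type} {R : α → α → Prop} {Q : Finset α} {C : Finset (Finset α)}
    (h : IsComp R Q C) (P : α → Prop) (hP : ∀ p q, P p → P q → R p q) {M : Type}
    [AddCommMonoid M] (F : Finset α → M) (h1 : ∀ Q', F Q' ≠ 0 → ∃ p ∈ Q', P p)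
    (h2 : ∀ Q' A, A ⊆ Q' → (∀ p ∈ Q', p ∉ A → ¬ P p) → F Q' = F A) :
    F Q = ∑ A ∈ C, F A := by
  by_cases hex : ∃ A0 ∈ C, ∃ p ∈ A0, P p
  · obtain ⟨A0, hA0, p0, hp0, hPp⟩ := hex
    rw [Finset.sum_eq_single_of_mem A0 hA0]
    · refine h2 Q A0 (h.subset hA0) ?_
      intro p hp hpA hPp'
      obtain ⟨A', hA', hpA'⟩ := (h.2.1 p).1 hp
      have hne : A0 ≠ A' := by
        rintro rfl
        exact hpA hpA'
      exact (h.2.2 A0 hA0 A' hA' hne p0 hp0 p hpA').2 (hP p0 p hPp hPp')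
    · intro A' hA' hne
      by_contra hF
      obtain ⟨p, hp, hPp'⟩ := h1 A' hF
      exact (h.2.2 A0 hA0 A' hA' (Ne.symm hne) p0 hp0 p hp).2 (hP p0 p hPp hPp')
  · have e1 : F Q = 0 := by
      by_contra hF
      obtain ⟨p, hp, hPp⟩ := h1 Q hF
      obtain ⟨A, hA, hpA⟩ := (h.2.1 p).1 hp
      exact hex ⟨A, hA, p, hpA, hPp⟩
    rw [e1]
    symm
    refine Finset.sum_eq_zero fun A hA => ?_
    by_contra hF
    obtain ⟨p, hp, hPp⟩ := h1 A hF
    exact hex ⟨A, hA, p, hp, hPp⟩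

/-- two components have disjoint values -/
theorem loc_abs2 {α : Type} {R : α → α → Prop} {Q : Finset α} {C : Finset (Finset α)}
    (h : IsComp R Q C) (P : α → Prop) (hP : ∀ p q, P p → P q → R p q) {A A' : Finset α}
    (hA : A ∈ C) (hA' : A' ∈ C) (hne : A ≠ A') (h1 : ∃ p ∈ A, P p) (h2 : ∃ p ∈ A', P p) :
    False := by
  obtain ⟨p, hp, h3⟩ := h1
  obtain ⟨q, hq, h4⟩ := h2
  exact (h.2.2 A hA A' hA' hne p hp q hq).2 (hP p q h3 h4)

section loc

variable {V J ι : Type} [Fintype V] [DecidableEq V] [Fintype J] [DecidableEq J] {φ : ι → V → ℤ}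
  {S : J → Finset V} {I B : Finset J}

theorem loc_reg {p : Pol ι J} {x x' : V} (h1 : x' ∈ psup φ S I B p) (h2 : x ∈ nbr S B x') :
    x ∈ reg φ S I B p := by
  unfold reg
  rw [Finset.mem_biUnion]
  exact ⟨x', h1, h2⟩

theorem loc_self (x : V) : x ∈ nbr S B x := Finset.mem_insert_self _ _

theorem loc_nbr {j : J} (hj : j ∈ B) {x x' : V} (hx : x ∈ S j) (hx' : x' ∈ S j) :
    x ∈ nbr S B x' := by
  unfold nbr
  rw [Finset.mem_insert, Finset.mem_biUnion]
  exact Or.inr ⟨j, Finset.mem_filter.2 ⟨hj, hx'⟩, hx⟩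

theorem loc_phi {Q A : Finset (Pol ι J)} (hA : A ⊆ Q) {x x' : V} (hx : x ∈ nbr S B x')
    (h : ∀ p ∈ Q, p ∉ A → x ∉ reg φ S I B p) :
    ∑ p ∈ Q, pΦ φ x' p = ∑ p ∈ A, pΦ φ x' p := by
  symm
  refine Finset.sum_subset hA ?_
  intro p hp hpA
  by_contra hne
  refine h p hp hpA (loc_reg ?_ hx)
  rcases p with a | p | p
  · show x' ∈ isupp (φ a)
    exact Finset.mem_filter.2 ⟨Finset.mem_univ _, hne⟩
  · exact absurd rfl hne
  · exact absurd rfl hne

theorem loc_pr {Q A : Finset (Pol ι J)} (hA : A ⊆ Q) {x x' : V} (hx : x ∈ nbr S B x') {i : J}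
    (hi : i ∈ I) (hi' : x' ∈ S i) (h : ∀ p ∈ Q, p ∉ A → x ∉ reg φ S I B p) :
    ∑ p ∈ Q, pr i p = ∑ p ∈ A, pr i p := by
  symm
  refine Finset.sum_subset hA ?_
  intro p hp hpA
  by_contra hne
  refine h p hp hpA (loc_reg ?_ hx)
  rcases p with a | p | p
  · exact absurd rfl hne
  · have hne' : (if p.1 = i then p.2 else 0) ≠ 0 := hne
    have e1 : p.1 = i := by
      by_contra e
      rw [if_neg e] at hne'
      exact hne' rfl
    rw [if_pos e1] at hne'
    show x' ∈ (if p.1 ∈ I ∧ p.2 ≠ 0 then S p.1 else ∅)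
    rw [if_pos ⟨e1 ▸ hi, hne'⟩, e1]
    exact hi'
  · exact absurd rfl hne

theorem loc_pc {Q A : Finset (Pol ι J)} (hA : A ⊆ Q) {x : V} {j : J}
    (hj : j ∈ B) (hj' : x ∈ S j) (h : ∀ p ∈ Q, p ∉ A → x ∉ reg φ S I B p) :
    ∑ p ∈ Q, pc j p = ∑ p ∈ A, pc j p := by
  symm
  refine Finset.sum_subset hA ?_
  intro p hp hpA
  by_contra hne
  refine h p hp hpA (loc_reg ?_ (loc_self x))
  rcases p with a | p | p
  · exact absurd rfl hne
  · exact absurd rfl hne
  · have hne' : (if p.1 = j then p.2 else 0) ≠ 0 := hne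
    have e1 : p.1 = j := by
      by_contra e
      rw [if_neg e] at hne'
      exact hne' rfl
    rw [if_pos e1] at hne'
    show x ∈ (if p.1 ∈ B ∧ p.2 ≠ 0 then S p.1 else ∅)
    rw [if_pos ⟨e1 ▸ hj, hne'⟩, e1]
    exact hj'

theorem loc_agree (T Lam : ℝ) {Q A : Finset (Pol ι J)} (hA : A ⊆ Q) {x : V}
    (h : ∀ p ∈ Q, p ∉ A → x ∉ reg φ S I B p) :
    outQ φ S I B T Lam Q x = outQ φ S I B T Lam A x := by
  unfold outQ out
  beta_reduce
  congr 1
  congr 1
  · rw [loc_phi hA (loc_self x) h]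
  · refine Finset.sum_congr rfl fun j hj => ?_
    obtain ⟨hjB, hjx⟩ := Finset.mem_filter.1 hj
    unfold dec
    beta_reduce
    rw [loc_pc hA hjB hjx h]
    congr 2
    congr 1
    refine Finset.sum_congr rfl fun x' hx' => ?_
    have hn : x ∈ nbr S B x' := loc_nbr hjB hjx hx'
    rw [loc_phi hA hn h]
    congr 2
    refine Finset.sum_congr rfl fun i hi => ?_
    obtain ⟨hi1, hi2⟩ := Finset.mem_filter.1 hi
    rw [loc_pr hA hn (Finset.mem_of_mem_erase hi1) hi2 h]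

omit [Fintype V] [Fintype J] in
theorem loc_empty (T Lam : ℝ) (x : V) :
    outQ φ S I B T Lam (∅ : Finset (Pol ι J)) x = 0 := by
  unfold outQ out dec
  simp

end loc

theorem st_LOC : ST_LOC := by
  intro V J ι _ _ _ _ φ S I B T Lam
  have h1 : ∀ (Q : Finset (Pol ι J)) (x : V), outQ φ S I B T Lam Q x ≠ 0 →
      ∃ p ∈ Q, x ∈ reg φ S I B p := by
    intro Q x hne
    by_contra hcon
    push Not at hcon
    refine hne ?_
    rw [loc_agree T Lam (Finset.empty_subset Q) (fun p hp _ => hcon p hp)]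
    exact loc_empty T Lam x
  have hP : ∀ (x : V) (p q : Pol ι J), x ∈ reg φ S I B p → x ∈ reg φ S I B q →
      Rel φ S I B p q := by
    intro x p q hp hq hd
    exact (Finset.disjoint_left.1 hd) hp hq
  refine ⟨h1, ?_⟩
  intro Q C hC
  refine ⟨?_, ?_⟩
  · intro x
    exact loc_abs hC (fun p => x ∈ reg φ S I B p) (hP x) (fun Q' => outQ φ S I B T Lam Q' x)
      (fun Q' hQ' => h1 Q' x hQ') (fun Q' A hA hh => loc_agree T Lam hA hh)
  · intro A hA A' hA' hne x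
    by_contra hcon
    push Not at hcon
    exact loc_abs2 hC (fun p => x ∈ reg φ S I B p) (hP x) hA hA' hne (h1 A x hcon.1)
      (h1 A' x hcon.2)

end Pool.Agent.Helper50.BL
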